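import Mathlib

/-!
# Retracts of free Burnside groups which are not free

`B X n` is the free Burnside group `F_X / F_X^n` of exponent `n` on the set `X`.
If `n` is not a prime power, choose coprime `a, b > 1` with `n = a b` and `e` with `e = 1` modulo `a`
and `e = 0` modulo `b`.  The endomorphism `x ↦ x ^ e` of `B X n` is idempotent, and its image `H` is
a retract all of whose abelian quotients have exponent dividing `a`, so that `H` is not a free
Burnside group of exponent `n`.
-/

set_option autoImplicit false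

namespace Pool.Agent.Results.MP_836feb_al.NonFreeRetracts

universe u v

/-- the free Burnside group of exponent `n` on the set `X`: the free group on `X` modulo the normal
subgroup generated by all `n`-th powers -/
abbrev B (X : Type u) (n : ℕ) : Type u :=
  FreeGroup X ⧸ Subgroup.normalClosure {g : FreeGroup X | ∃ w : FreeGroup X, g = w ^ n}

/-- `ρ` is a retraction of `G` onto the subgroup `H` -/
def IsRetraction {G : Type u} [Group G] (H : Subgroup G) (ρ : G →* H) : Prop :=
  ∀ h : H, ρ h = h

/-- every retract of `B X n` is isomorphic to a free Burnside group `B Y n` -/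
def RetractsFree (X : Type u) (n : ℕ) : Prop :=
  ∀ (H : Subgroup (B X n)) (ρ : B X n →* H), IsRetraction H ρ →
    ∃ Y : Type u, Nonempty (H ≃* B Y n)

section basics

variable {X : Type u} {n : ℕ}

/-- the free generators -/
def gen (n : ℕ) (x : X) : B X n := QuotientGroup.mk (FreeGroup.of x)

theorem pow_n (g : B X n) : g ^ n = 1 := by
  induction g using QuotientGroup.induction_on with
  | H w =>
    rw [← QuotientGroup.mk_pow, QuotientGroup.eq_one_iff]
    exact Subgroup.subset_normalClosure ⟨w, rfl⟩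

/-- the universal property -/
def lift {G : Type v} [Group G] (hG : ∀ g : G, g ^ n = 1) (f : X → G) : B X n →* G :=
  QuotientGroup.lift _ (FreeGroup.lift f) (by
    intro w hw
    have h : Subgroup.normalClosure {g : FreeGroup X | ∃ w : FreeGroup X, g = w ^ n} ≤
        (FreeGroup.lift f).ker := by
      apply Subgroup.normalClosure_le_normal
      rintro g ⟨w, rfl⟩
      show _ ∈ (FreeGroup.lift f).ker
      rw [MonoidHom.mem_ker, map_pow, hG]
    exact h hw)

theorem lift_gen {G : Type v} [Group G] (hG : ∀ g : G, g ^ n = 1) (f : X → G) (x : X) :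
    lift hG f (gen n x) = f x := by
  show FreeGroup.lift f (FreeGroup.of x) = f x
  simp

theorem hom_ext {G : Type v} [Group G] {φ ψ : B X n →* G} (h : ∀ x, φ (gen n x) = ψ (gen n x)) :
    φ = ψ := by
  apply QuotientGroup.monoidHom_ext
  apply FreeGroup.ext_hom
  intro x
  exact h x

theorem zmod_pow (g : Multiplicative (ZMod n)) : g ^ n = 1 := by
  apply Multiplicative.toAdd.injective
  rw [toAdd_pow, toAdd_one, nsmul_eq_mul, ZMod.natCast_self, zero_mul]

theorem pow_congr (g : B X n) {k l : ℕ} (h : k ≡ l [MOD n]) : g ^ k = g ^ l := by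
  have hg := orderOf_dvd_of_pow_eq_one (pow_n g)
  exact pow_eq_pow_iff_modEq.2 (h.of_dvd hg)

end basics

section retract

variable (X : Type u) (n e : ℕ)

/-- the endomorphism `x ↦ x ^ e` -/
def phi : B X n →* B X n := lift pow_n fun x => gen n x ^ e

theorem phi_gen (x : X) : phi X n e (gen n x) = gen n x ^ e := lift_gen _ _ _

theorem phi_phi (he : e * e ≡ e [MOD n]) (g : B X n) : phi X n e (phi X n e g) = phi X n e g := by
  have : (phi X n e).comp (phi X n e) = phi X n e := by
    apply hom_ext
    intro x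
    rw [MonoidHom.comp_apply, phi_gen, map_pow, phi_gen, ← pow_mul]
    exact pow_congr _ he
  exact DFunLike.congr_fun this g

theorem isRetraction (he : e * e ≡ e [MOD n]) :
    IsRetraction (phi X n e).range (phi X n e).rangeRestrict := by
  rintro ⟨_, g, rfl⟩
  apply Subtype.ext
  exact phi_phi X n e he g

/-- a homomorphism of the image to a commutative group of exponent `n` has exponent `a` -/
theorem comm_pow {a : ℕ} (hea : n ∣ e * a) {C : Type v} [CommGroup C]
    (χ : (phi X n e).range →* C) (h : (phi X n e).range) : χ h ^ a = 1 := by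
  obtain ⟨g, hg⟩ : ∃ g, (phi X n e).rangeRestrict g = h := (phi X n e).rangeRestrict_surjective h
  have key : ((powMonoidHom a).comp χ).comp (phi X n e).rangeRestrict = 1 := by
    apply hom_ext
    intro x
    have h1 : (phi X n e).rangeRestrict (gen n x) ^ a = 1 := by
      apply Subtype.ext
      show phi X n e (gen n x) ^ a = 1
      rw [phi_gen, ← pow_mul]
      obtain ⟨c, hc⟩ := hea
      rw [hc, pow_mul, pow_n, one_pow]
    show χ ((phi X n e).rangeRestrict (gen n x)) ^ a = 1
    rw [← map_pow, h1, map_one]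
  have := DFunLike.congr_fun key g
  rw [← hg]
  exact this

theorem not_free {a b : ℕ} (hn : n = a * b) (hb : 1 < b) (ha : 1 < a) (hea : e ≡ 1 [MOD a])
    (heb : b ∣ e) (he : e * e ≡ e [MOD n]) [Nonempty X] (Y : Type v) :
    IsEmpty ((phi X n e).range ≃* B Y n) := by
  refine ⟨fun i => ?_⟩
  have hna : n ∣ e * a := by
    obtain ⟨c, hc⟩ := heb
    exact ⟨c, by rw [hc, hn]; ring⟩
  obtain ⟨x⟩ := (inferInstance : Nonempty X)
  rcases isEmpty_or_nonempty Y with hY | hY
  · -- the image is trivial
    have h1 : ∀ g : B Y n, g = 1 := by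
      intro g
      have : MonoidHom.id (B Y n) = 1 := by
        apply hom_ext
        intro y
        exact hY.elim y
      exact DFunLike.congr_fun this g
    have h2 : gen n x ^ e = 1 := by
      have h3 : (phi X n e).rangeRestrict (gen n x) = 1 := by
        apply i.injective
        rw [h1 (i _), map_one]
      have h4 := congrArg Subtype.val h3
      rw [← phi_gen]
      exact h4
    have h3 := congrArg (lift (zmod_pow (n := n)) fun _ : X => Multiplicative.ofAdd (1 : ZMod n)) h2
    rw [map_pow, lift_gen, MonoidHom.map_one, ← ofAdd_nsmul] at h3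
    have h4 : ((e : ℕ) : ZMod n) = 0 := by
      have := Multiplicative.ofAdd.injective (h3.trans ofAdd_zero.symm)
      rwa [nsmul_eq_mul, mul_one] at this
    rw [ZMod.natCast_eq_zero_iff] at h4
    have h5 : a ∣ e := (Dvd.intro b hn.symm).trans h4
    have h6 : a ∣ 1 := (Nat.ModEq.dvd_iff hea dvd_rfl).1 h5
    have := Nat.le_of_dvd one_pos h6
    omega
  · obtain ⟨y⟩ := hY
    let χ : B Y n →* Multiplicative (ZMod n) :=
      lift (zmod_pow (n := n)) fun _ : Y => Multiplicative.ofAdd (1 : ZMod n)
    have h1 := comm_pow X n e hna (χ.comp i.toMonoidHom) (i.symm (gen n y))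
    have h2 : (χ.comp i.toMonoidHom) (i.symm (gen n y)) = Multiplicative.ofAdd (1 : ZMod n) := by
      show χ (i (i.symm (gen n y))) = _
      rw [i.apply_symm_apply]
      exact lift_gen _ _ _
    rw [h2, ← ofAdd_nsmul] at h1
    have h4 : ((a : ℕ) : ZMod n) = 0 := by
      have := Multiplicative.ofAdd.injective (h1.trans ofAdd_zero.symm)
      rwa [nsmul_eq_mul, mul_one] at this
    rw [ZMod.natCast_eq_zero_iff, hn] at h4
    have := Nat.le_of_dvd (by omega) h4
    nlinarith

end retract

/-! ### The Heisenberg group -/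

/-- the Heisenberg group over `ZMod a` -/
@[ext] structure Heis (a : ℕ) where
  x : ZMod a
  y : ZMod a
  z : ZMod a

namespace Heis

variable {a : ℕ}

instance : Mul (Heis a) := ⟨fun g h => ⟨g.x + h.x, g.y + h.y, g.z + h.z + g.x * h.y⟩⟩
instance : One (Heis a) := ⟨⟨0, 0, 0⟩⟩
instance : Inv (Heis a) := ⟨fun g => ⟨-g.x, -g.y, -g.z + g.x * g.y⟩⟩

@[simp] theorem mul_x (g h : Heis a) : (g * h).x = g.x + h.x := rfl
@[simp] theorem mul_y (g h : Heis a) : (g * h).y = g.y + h.y := rfl
@[simp] theorem mul_z (g h : Heis a) : (g * h).z = g.z + h.z + g.x * h.y := rfl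
@[simp] theorem one_x : (1 : Heis a).x = 0 := rfl
@[simp] theorem one_y : (1 : Heis a).y = 0 := rfl
@[simp] theorem one_z : (1 : Heis a).z = 0 := rfl
@[simp] theorem inv_x (g : Heis a) : (g⁻¹).x = -g.x := rfl
@[simp] theorem inv_y (g : Heis a) : (g⁻¹).y = -g.y := rfl
@[simp] theorem inv_z (g : Heis a) : (g⁻¹).z = -g.z + g.x * g.y := rfl

instance : Group (Heis a) where
  mul_assoc g h k := by
    ext
    · simp [add_assoc]
    · simp [add_assoc]
    · simp; ring
  one_mul g := by ext <;> simp
  mul_one g := by ext <;> simp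
  inv_mul_cancel g := by
    ext
    · simp
    · simp
    · simp

theorem pow_eq (g : Heis a) (k : ℕ) :
    g ^ k = ⟨k * g.x, k * g.y, k * g.z + (k.choose 2 : ℕ) * (g.x * g.y)⟩ := by
  induction k with
  | zero => ext <;> simp
  | succ k ih =>
    rw [pow_succ, ih]
    ext
    · simp; ring
    · simp; ring
    · have : (k + 1).choose 2 = k + k.choose 2 := by
        rw [Nat.choose_succ_succ' k 1, Nat.choose_one_right]
      rw [this]
      simp
      ring

theorem pow_a (ha : Odd a) (g : Heis a) : g ^ a = 1 := by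
  rw [pow_eq]
  have h : ((a.choose 2 : ℕ) : ZMod a) = 0 := by
    rw [ZMod.natCast_eq_zero_iff, Nat.choose_two_right]
    obtain ⟨m, rfl⟩ := ha
    refine ⟨m, ?_⟩
    have : (2 * m + 1) * (2 * m + 1 - 1) = 2 * ((2 * m + 1) * m) := by
      rw [Nat.add_sub_cancel]; ring
    rw [this, Nat.mul_div_cancel_left _ (by norm_num)]
  ext <;> simp [h]

end Heis

theorem noncomm (X : Type u) (n e : ℕ) {a b : ℕ} (hn : n = a * b) (ha : 1 < a) (hodd : Odd n)
    (hea : e ≡ 1 [MOD a]) [Nontrivial X] : ∃ g h : (phi X n e).range, g * h ≠ h * g := by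
  classical
  obtain ⟨x, y, hxy⟩ := exists_pair_ne X
  have hodda : Odd a := by
    rw [hn] at hodd
    exact Nat.Odd.of_mul_left hodd
  have hex : ∀ g : Heis a, g ^ n = 1 := fun g => by rw [hn, pow_mul, Heis.pow_a hodda, one_pow]
  let f : X → Heis a := fun t => if t = x then ⟨1, 0, 0⟩ else ⟨0, 1, 0⟩
  have he : ∀ g : Heis a, g ^ e = g := by
    intro g
    have h1 : g ^ e = g ^ 1 :=
      pow_eq_pow_iff_modEq.2 (hea.of_dvd (orderOf_dvd_of_pow_eq_one (Heis.pow_a hodda g)))
    rw [h1, pow_one]
  refine ⟨(phi X n e).rangeRestrict (gen n x), (phi X n e).rangeRestrict (gen n y), fun h => ?_⟩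
  have h1 : phi X n e (gen n x) * phi X n e (gen n y) =
      phi X n e (gen n y) * phi X n e (gen n x) := congrArg Subtype.val h
  have h2 := congrArg (lift hex f) h1
  rw [map_mul, map_mul, phi_gen, phi_gen, map_pow, map_pow, lift_gen, lift_gen, he, he] at h2
  have h3 := congrArg Heis.z h2
  have hy : y ≠ x := hxy.symm
  simp only [f, if_true, if_neg hy, Heis.mul_z] at h3
  have h4 : (1 : ZMod a) = 0 := by simpa using h3
  have : (a : ℕ) ∣ 1 := by
    rw [← ZMod.natCast_eq_zero_iff]
    simpa using h4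
  have := Nat.le_of_dvd one_pos this
  omega

theorem factor {n : ℕ} (hn : 1 < n) (hp : ¬ IsPrimePow n) :
    ∃ a b : ℕ, n = a * b ∧ 1 < a ∧ 1 < b ∧ Nat.Coprime a b := by
  have h2 : n.minFac.Prime := Nat.minFac_prime (by omega)
  obtain ⟨k, m, hm, hk⟩ := Nat.exists_eq_pow_mul_and_not_dvd (n := n) (by omega) n.minFac
    h2.ne_one
  have hk0 : k ≠ 0 := by
    rintro rfl
    rw [pow_zero, one_mul] at hk
    exact hm (hk ▸ Nat.minFac_dvd n)
  refine ⟨n.minFac ^ k, m, hk, Nat.one_lt_pow hk0 h2.one_lt, ?_, ?_⟩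
  · rcases Nat.lt_or_ge 1 m with h | h
    · exact h
    · exfalso
      have : m = 0 ∨ m = 1 := by omega
      rcases this with rfl | rfl
      · exact hm (dvd_zero _)
      · apply hp
        rw [isPrimePow_nat_iff]
        exact ⟨n.minFac, k, h2, by omega, by omega⟩
  · exact Nat.Coprime.pow_left k ((Nat.Prime.coprime_iff_not_dvd h2).2 hm)

theorem exists_e {a b : ℕ} (hab : Nat.Coprime a b) :
    ∃ e : ℕ, e ≡ 1 [MOD a] ∧ b ∣ e ∧ e * e ≡ e [MOD a * b] := by
  obtain ⟨e, h1, h2⟩ := Nat.chineseRemainder hab 1 0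
  have h3 : e * e ≡ e [MOD a] := by
    have := (h1.mul_right e)
    rwa [one_mul] at this
  have h4 : e * e ≡ e [MOD b] := by
    have h5 : e * e ≡ 0 [MOD b] := by
      have := (h2.mul_right e)
      rwa [zero_mul] at this
    exact h5.trans h2.symm
  exact ⟨e, h1, (Nat.modEq_zero_iff_dvd).1 h2, (Nat.modEq_and_modEq_iff_modEq_mul hab).1 ⟨h3, h4⟩⟩

/-- **Non-free retracts.** -/
theorem main {n : ℕ} (hn : 1 < n) (hp : ¬ IsPrimePow n) (X : Type u) [Nonempty X] :
    ∃ (H : Subgroup (B X n)) (ρ : B X n →* H), IsRetraction H ρ ∧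
      (Odd n → Nontrivial X → ∃ g h : H, g * h ≠ h * g) ∧
      ∀ Y : Type v, IsEmpty (H ≃* B Y n) := by
  obtain ⟨a, b, hab, ha, hb, hc⟩ := factor hn hp
  obtain ⟨e, h1, h2, h3⟩ := exists_e hc
  rw [← hab] at h3
  refine ⟨(phi X n e).range, (phi X n e).rangeRestrict, isRetraction X n e h3, ?_, ?_⟩
  · intro hodd hX
    exact noncomm X n e hab ha hodd h1
  · exact fun Y => not_free X n e hab hb ha h1 h2 h3 Y

/-- prime powers, rank one -/
theorem rank_one {n : ℕ} (hp : IsPrimePow n) (X : Type u) [Unique X] : RetractsFree X n := by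
  intro H ρ hρ
  obtain ⟨p, k, hpp, hk, rfl⟩ := (isPrimePow_nat_iff n).1 hp
  have hcyc : ∀ g : B X (p ^ k), ∃ j : ℕ, g = gen (p ^ k) default ^ j := by
    intro g
    have hz : g ∈ Subgroup.zpowers (gen (p ^ k) (default : X)) := by
      induction g using QuotientGroup.induction_on with
      | H w =>
        induction w using FreeGroup.induction_on with
        | C1 => exact one_mem _
        | of x =>
          rw [Unique.eq_default x]
          exact Subgroup.mem_zpowers _
        | inv_of x h => exact inv_mem h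
        | mul x y hx hy => exact mul_mem hx hy
    have hfin : IsOfFinOrder (gen (p ^ k) (default : X)) :=
      isOfFinOrder_iff_pow_eq_one.2 ⟨p ^ k, pow_pos hpp.pos k, pow_n _⟩
    rw [← hfin.mem_powers_iff_mem_zpowers] at hz
    obtain ⟨j, hj⟩ := hz
    exact ⟨j, hj.symm⟩
  obtain ⟨j, hj⟩ := hcyc (ρ (gen (p ^ k) default) : B X (p ^ k))
  have hidem : ∀ g : B X (p ^ k), ((ρ (ρ g : B X (p ^ k)) : H) : B X (p ^ k)) = ρ g := by
    intro g
    rw [hρ (ρ g)]
  have h1 : gen (p ^ k) (default : X) ^ (j * j) = gen (p ^ k) default ^ j := by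
    have h2 := hidem (gen (p ^ k) default)
    rw [hj, map_pow, Subgroup.coe_pow, hj, ← pow_mul] at h2
    exact h2
  have h2 : j * j ≡ j [MOD p ^ k] := by
    have h3 := congrArg (lift (zmod_pow (n := p ^ k))
      fun _ : X => Multiplicative.ofAdd (1 : ZMod (p ^ k))) h1
    rw [map_pow, map_pow, lift_gen, ← ofAdd_nsmul, ← ofAdd_nsmul] at h3
    have h4 := Multiplicative.ofAdd.injective h3
    rw [nsmul_eq_mul, nsmul_eq_mul, mul_one, mul_one] at h4
    exact (ZMod.natCast_eq_natCast_iff _ _ _).1 h4
  have h3 : p ^ k ∣ j ∨ j ≡ 1 [MOD p ^ k] := by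
    rcases Nat.eq_zero_or_pos j with rfl | hj0
    · exact Or.inl (dvd_zero _)
    have h4 : p ^ k ∣ j * (j - 1) := by
      have h5 := (Nat.modEq_iff_dvd' (show j ≤ j * j by nlinarith)).1 h2.symm
      have h6 : j * j - j = j * (j - 1) := by
        rw [Nat.mul_sub, mul_one]
      rwa [h6] at h5
    have hcop : Nat.Coprime j (j - 1) := by
      have : Nat.Coprime (j - 1 + 1) (j - 1) := by simp
      rwa [Nat.sub_add_cancel hj0] at this
    by_cases hpj : p ∣ j
    · left
      have h : ¬ p ∣ j - 1 := by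
        intro h
        have := Nat.dvd_gcd hpj h
        rw [hcop] at this
        exact hpp.one_lt.ne' (Nat.dvd_one.1 this)
      exact (Nat.Coprime.pow_left k ((Nat.Prime.coprime_iff_not_dvd hpp).2 h)).dvd_of_dvd_mul_right
        h4
    · right
      have h := hpj
      have h7 := (Nat.Coprime.pow_left k ((Nat.Prime.coprime_iff_not_dvd hpp).2 h)).dvd_of_dvd_mul_left
        h4
      exact ((Nat.modEq_iff_dvd' hj0).2 h7).symm
  rcases h3 with h | h
  · -- the retraction is trivial
    have h4 : ∀ g : H, g = 1 := by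
      intro g
      have h5 : H.subtype.comp ρ = 1 := by
        apply hom_ext
        intro x
        rw [Unique.eq_default x]
        show ((ρ (gen (p ^ k) default) : H) : B X (p ^ k)) = 1
        rw [hj]
        obtain ⟨c, rfl⟩ := h
        rw [pow_mul, pow_n, one_pow]
      have h6 := DFunLike.congr_fun h5 (g : B X (p ^ k))
      apply Subtype.ext
      rw [← hρ g]
      exact h6
    have h5 : ∀ g : B PEmpty.{u+1} (p ^ k), g = 1 := by
      intro g
      have : MonoidHom.id (B PEmpty.{u+1} (p ^ k)) = 1 := by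
        apply hom_ext
        intro y
        exact y.elim
      exact DFunLike.congr_fun this g
    haveI : Unique H := ⟨⟨1⟩, h4⟩
    haveI : Unique (B PEmpty.{u+1} (p ^ k)) := ⟨⟨1⟩, h5⟩
    exact ⟨PEmpty.{u+1}, ⟨MulEquiv.ofUnique⟩⟩
  · have h4 : H = ⊤ := by
      rw [eq_top_iff]
      intro g _
      have h5 : H.subtype.comp ρ = MonoidHom.id _ := by
        apply hom_ext
        intro x
        rw [Unique.eq_default x]
        show ((ρ (gen (p ^ k) default) : H) : B X (p ^ k)) = gen (p ^ k) default
        rw [hj, pow_congr _ h, pow_one]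
      have h6 := DFunLike.congr_fun h5 g
      have h7 : ((ρ g : H) : B X (p ^ k)) = g := h6
      rw [← h7]
      exact (ρ g).2
    subst h4
    exact ⟨X, ⟨Subgroup.topEquiv⟩⟩

/-- **Retracts of free Burnside groups.**
(1) If `n > 1` is not a prime power and `X` is a nonempty set, the free Burnside group `B X n` has a
retract `H` which is not isomorphic to any free Burnside group `B Y n`; for odd `n` and `X` with at
least two elements this `H` is not commutative.
(2) For `n > 1` all retracts of the group `B(1, n)` of rank one are free if and only if `n` is a prime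
power.
(3) There is no `N` such that for every odd `n ≥ N` and every nonempty set `X` all retracts of `B X n`
are free Burnside groups of exponent `n`; there is no such `N` either if one only considers sets `X`
with at least two elements, or only the rank `m` for a fixed `m ≥ 1`. -/
theorem result :
    (∀ n : ℕ, 1 < n → ¬ IsPrimePow n → ∀ (X : Type u) [Nonempty X],
      ∃ (H : Subgroup (B X n)) (ρ : B X n →* H), IsRetraction H ρ ∧
        (Odd n → Nontrivial X → ∃ g h : H, g * h ≠ h * g) ∧
        ∀ Y : Type v, IsEmpty (H ≃* B Y n)) ∧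
    (∀ n : ℕ, 1 < n → (RetractsFree Unit n ↔ IsPrimePow n)) ∧
    (∀ (X : Type u) [Nonempty X], ¬ ∃ N : ℕ, ∀ n : ℕ, N ≤ n → Odd n → RetractsFree X n) := by
  refine ⟨fun n hn hp X _ => main hn hp X, fun n hn => ⟨fun h => ?_, fun h => ?_⟩, ?_⟩
  · by_contra hp
    obtain ⟨H, ρ, hρ, -, hH⟩ := main.{0, 0} hn hp Unit
    obtain ⟨Y, ⟨i⟩⟩ := h H ρ hρ
    exact (hH Y).elim i
  · exact rank_one h Unit
  · rintro X _ ⟨N, hN⟩
    have hodd : Odd (15 * 15 ^ N) := Odd.mul (by decide) (Odd.pow (by decide))
    have hbig : N ≤ 15 * 15 ^ N := by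
      have := Nat.lt_pow_self (show 1 < 15 by norm_num) (n := N)
      omega
    have hnp : ¬ IsPrimePow (15 * 15 ^ N) := by
      intro h
      obtain ⟨p, k, hpp, -, hk⟩ := (isPrimePow_nat_iff _).1 h
      have h3 : 3 ∣ p ^ k := hk ▸ Dvd.dvd.mul_right (by norm_num) _
      have h5 : 5 ∣ p ^ k := hk ▸ Dvd.dvd.mul_right (by norm_num) _
      have e3 := (Nat.prime_dvd_prime_iff_eq Nat.prime_three hpp).1
        (Nat.prime_three.dvd_of_dvd_pow h3)
      have e5 := (Nat.prime_dvd_prime_iff_eq Nat.prime_five hpp).1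
        (Nat.prime_five.dvd_of_dvd_pow h5)
      omega
    have h1 : 1 < 15 * 15 ^ N := by
      have := Nat.one_le_pow N 15 (by norm_num)
      omega
    obtain ⟨H, ρ, hρ, -, hH⟩ := main.{u, u} h1 hnp X
    obtain ⟨Y, ⟨i⟩⟩ := hN _ hbig hodd H ρ hρ
    exact (hH Y).elim i

end Pool.Agent.Results.MP_836feb_al.NonFreeRetracts
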